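import Mathlib
import Pool.Agent.SSG.FourMain

set_option autoImplicit false

namespace Pool.Agent.Results.MP_99bc98_al.SpectrumSelfSimilar

open Pool.Agent.SSG

/-- The sums `∑ cₙ d^{-(n+1)}` (`n ≥ 0`) with all digits `cₙ` in `{0, d-1}`. -/
def digitSet (d : ℕ) : Set ℝ :=
  {x | ∃ b : ℕ → Bool, x = ∑' n : ℕ, (if b n then (d : ℝ) - 1 else 0) / (d : ℝ) ^ (n + 1)}

/-- The base set for `d = 4`. -/
def baseFour : Set ℝ :=
  {y | ∃ x ∈ digitSet 4, y = x * Real.log 2} ∪
  {y | ∃ x ∈ digitSet 4, y = Real.log 3 + x * Real.log 2} ∪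
  {(2 * Real.log 3 + Real.log 2) / 4}

/-- The set of excesses for `d = 4`. -/
def excessFour : Set ℝ :=
  {e | ∃ x ∈ digitSet 4, e = Real.log 3 * x} ∪
  {e | ∃ (r : ℕ) (b : ℕ → Bool), ∃ y ∈ baseFour,
    e = Real.log 3 * ∑ i ∈ Finset.range r, (if b i then 3 else 0) / (4 : ℝ) ^ (i + 1) +
      y / 4 ^ r}

theorem digitSet_eq (d : ℕ) : digitSet d = cantor d := rfl

theorem baseFour_eq : baseFour = E0 := rfl

theorem excessFour_iff (e : ℝ) : e ∈ excessFour ↔ ((∃ x ∈ cantor 4, e = Real.log 3 * x) ∨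
      (∃ (r : ℕ) (b : ℕ → Bool), ∃ e0 ∈ E0,
        e = Real.log 3 * ∑ i ∈ Finset.range r, cterm 4 b i + e0 / 4 ^ r)) := by
  have h : ∀ (b : ℕ → Bool) (i : ℕ), cterm 4 b i = (if b i then 3 else 0) / (4 : ℝ) ^ (i + 1) := by
    intro b i
    unfold cterm
    norm_num
  simp only [h]
  rfl

/-- The set of Hausdorff dimensions of closures of self-similar groups, for every `d ≥ 2`. -/
theorem result :
    (∀ d : ℕ, 2 ≤ d → d ≠ 4 →
      {α : ℝ | ∃ G : Subgroup (Equiv.Perm (List (Fin d))), IsSelfSimilar G ∧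
        hdim (treeClosure (G : Set (Equiv.Perm (List (Fin d))))) = α} =
      Set.Icc (0 : ℝ) (Real.log (if d = 3 then 3 else ((d - 1).factorial : ℝ)) /
          Real.log (d.factorial : ℝ)) ∪
        {α : ℝ | ∃ x ∈ digitSet d, α = 1 - Real.log 2 / Real.log (d.factorial : ℝ) * x}) ∧
    {α : ℝ | ∃ G : Subgroup (Equiv.Perm (List (Fin 4))), IsSelfSimilar G ∧
        hdim (treeClosure (G : Set (Equiv.Perm (List (Fin 4))))) = α} =
      Set.Icc (0 : ℝ) (Real.log 8 / Real.log 24) ∪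
        {α : ℝ | ∃ e ∈ excessFour, α = (Real.log 4 + e) / Real.log 24} := by
  constructor
  · intro d hd hd4
    rw [main_selfSimilar hd hd4]
    unfold specSet
    rw [digitSet_eq]
    congr 2
    unfold thr
    split <;> simp
  · rw [four_selfSimilar]
    unfold specFour
    congr 1
    ext α
    constructor
    · rintro ⟨e, he, h⟩
      exact ⟨e, (excessFour_iff e).2 he, h⟩
    · rintro ⟨e, he, h⟩
      exact ⟨e, (excessFour_iff e).1 he, h⟩

end Pool.Agent.Results.MP_99bc98_al.SpectrumSelfSimilar
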